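import Mathlib
import Pool.Agent.Helper10.DegenThm

/-!
# Standard conjecture D and degenerations

Let `W` and `W'` be Weil cohomology theories, with the same field of coefficients `K`, for
varieties over fields `k` and `k'`. Let `Y` be a variety over `k` which is a finite product of
varieties stable over a subfield `F` of `K`, or the product of such a product and a variety all of
whose powers satisfy the standard conjecture D. Suppose that the cycles on `Y` degenerate to
varieties `U_i` and `V_j` over `k'` (for instance, `k'` is the residue field of a discrete
valuation of `k`, and `Y` has good reduction `U_0`, or the `U_i` and `V_j` are the strata of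
a strictly semistable reduction of `Y`), and that the standard conjecture D holds for all `U_i`
and `V_j`. Then the standard conjecture D holds for `Y`.

By theorems of Tate, Zarhin, Mori and Faltings (which are not part of this file), all abelian
varieties over finitely generated fields are stable over the field of rational numbers, for all
`ℓ`. So the standard conjecture D holds, for all `ℓ`, for all abelian varieties over finitely
generated fields which have a semistable reduction with abelian part `B` such that the standard
conjecture D holds for `B`, for instance `dim B ≤ 3`.
-/

universe u v w u' w' t

open Pool.Agent.Helper10 Pool.Agent.Helper11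

theorem Pool.Agent.Results.MP_5f0950_ag.Degeneration.result
    {k : Type u} [Field k] {k' : Type u'} [Field k'] {K : Type v} [Field K] [CharZero K]
    (W : WeilCohomology.{u, v, w} k K) (W' : WeilCohomology.{u', v, w'} k' K)
    (Ω : Type t) [Field Ω] [Algebra K Ω] [IsAlgClosed Ω] (F : Subfield K) (n : ℕ)
    (σ : Fin (n + 1) → (Ω ≃+* Ω))
    (hσ : ∀ j, ∀ a ∈ F, σ j (algebraMap K Ω a) = algebraMap K Ω a)
    (G : Set (∀ X : SmProjVar k, W.HΩ Ω X → W.HΩ Ω X)) (hG : G ⊆ W.symmetries Ω) (M : ℕ)
    (Y : SmProjVar k) (hY : RelativelyStableOver W Ω F σ G M Y)
    (hdeg : DegeneratesToStandardD W.toCohomologyData W'.toCohomologyData Y) :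
    W.StandardD Y :=
  Degen.standardD_of_degeneration hσ hG hdeg hY
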