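import Mathlib
import Pool.Agent.Helper10.CritThm

/-!
# Standard conjecture D and determinants of irreducible families

Let `W` be any Weil cohomology theory over any field `k`, with coefficient field `K`, and let `Ω` be
an algebraic closure of `K`. Let `G` be a set of symmetries of `W` (for instance a Galois group),
and `T` a set of symmetries, the multiplier of `h ∈ T` being in a subgroup `U h` of `Ωˣ`. Let `L` be
a set of finite families of classes in `Ω ⊗ H(V)` (for varying `V`), all even or all odd, absolutely
irreducible under `G`, stable under `Aut(Ω/K)`, the determinants of which are generalised
eigenvectors of the `h ∈ T`. A non-empty multiset `S` of families in `L` is called invariant if it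
is stable under conjugation and if the product of the eigenvalues of the determinants is in `U h`
for all `h ∈ T`. A variety is spanned by words if its cohomology is spanned by the images, under
algebraic correspondences, of products of pull-backs of members of families in `L`.

(A) Suppose that the varieties on which the families live are spanned by words. Then the standard
conjecture D holds for everything dominated by varieties `V` spanned by words and by the products
`X ^ n × V`, if and only if it holds for all powers of `X`, and for every numerically trivial class
`x` on `X ^ n × V` and every product `y` of the determinants of an invariant multiset on `V`, the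
push-forward of `x ∪ y` to `X ^ n` vanishes. So the conjecture is reduced to the part of rank one.

(B) If every invariant multiset has a multiple, all of whose products of determinants are algebraic,
then the standard conjecture D holds for everything dominated by varieties `V` spanned by words, and
by the products `X × V`, where all powers of `X` satisfy the standard conjecture D and the
eigenvalues of `h ∈ T` on `Ω ⊗ H(X)` are in `U h`.

By theorems of Tate, Zarhin, Mori and Faltings (which are not part of this file) (B) applies to
abelian varieties over finitely generated fields, for the `ℓ` such that the relations, stable under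
conjugation, between the determinants of the irreducible constituents of the Galois representation
`Ω ⊗ H¹` are consequences of quadratic ones.
-/

universe u v w t

open Pool.Agent.Helper10 Pool.Agent.Helper11

theorem Pool.Agent.Results.MP_5f0950_ag.DeterminantCriterion.result
    {k : Type u} [Field k] {K : Type v} [Field K] [CharZero K] (W : WeilCohomology.{u, v, w} k K)
    (Ω : Type t) [Field Ω] [Algebra K Ω] [IsAlgClosure K Ω] (G T : Set (W.Operator Ω))
    (hG : G ⊆ W.symmetries Ω) (U : W.Operator Ω → Subgroup Ωˣ) (hT : W.AreSymmetries Ω T U)
    (L : Set (W.ClassFamily Ω)) (lam : W.ClassFamily Ω → W.Operator Ω → Ωˣ)
    (hL : W.IsFamilySystem Ω G T L lam) :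
    ((∀ a ∈ L, W.SpannedByWords Ω L a.V) →
      ∀ X : SmProjVar k, (∀ h ∈ T, W.EigenvaluesIn Ω h (U h) X) →
        ((∀ Y, W.DominatedBy (W.RelativeWords Ω L X) Y → W.StandardD Y) ↔
          (∀ n, W.StandardD (X.selfProd n)) ∧ W.DeterminantsOrthogonal Ω T L lam U X)) ∧
    (W.InvariantDeterminantsAlgebraic Ω T L lam U →
      ∀ Y, W.DominatedBy (W.RelationType Ω T L U) Y → W.StandardD Y) :=
  ⟨fun hV X hX => WeilCohomology.standardD_iff_determinantsOrthogonal hG hT hL hV X hX,
    fun hR Y hY => WeilCohomology.standardD_of_relationType hG hT hL hR Y hY⟩
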