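import Mathlib
import Pool.Agent.Helper10.HD.Final

/-!
# Standard conjecture D and the Hodge index theorem for semistable degenerations

Let `W` and `W'` be Weil cohomology theories, with the same field of coefficients `K`, for
varieties over fields `k` and `k'` of arbitrary characteristics. Let `X` be a variety over `k` with
a divisor `d`, and suppose that `(X, d)` has a semistable degeneration such that all strata of the
special fibre (with the restrictions of `d`) satisfy the standard conjecture D and the standard
conjecture of Hodge type. Then

* `X` satisfies the standard conjecture of Hodge type with respect to `d`, and
* the standard conjecture D holds for `X` if and only if the standard conjecture of Lefschetz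
  type (conjecture A) holds for `X` and `d`.

For example, D holds for `X` if `X` is a product of curves, surfaces and abelian varieties over a
field of positive characteristic which has such a degeneration, for instance with strata whose
cohomology is generated by classes of toric or linear subvarieties.
-/

universe u v w u' w'

open Pool.Agent.Helper10

theorem Pool.Agent.Helper10.Old.HodgeDegeneration.result
    {k : Type u} [Field k] {k' : Type u'} [Field k'] {K : Type v} [Field K] [CharZero K]
    (W : WeilCohomology.{u, v, w} k K) (W' : WeilCohomology.{u', v, w'} k' K)
    (X : SmProjVar k) (d : X.Z 1)
    (hdeg : DegeneratesToHodgeType W.toCohomologyData W'.toCohomologyData X d) :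
    W.HodgeType X d ∧ (W.StandardD X ↔ W.LefschetzType X d) := by
  have hH := HD.hodgeType_of_degeneration W W' X d hdeg
  have hH' := (HD.hodgeType_iff W X d).mp hH
  exact ⟨hH, fun hD => HD.lefschetz_of_standardD hH' hD,
    fun hA => HD.standardD_of_lefschetz hH' hA⟩
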