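import Pool.Agent.Helper9.BSD.ContZero
import Pool.Agent.Helper99.CM.Fam

set_option autoImplicit false

namespace Pool.Agent.Helper10.Old.OrderInMean

open Pool.Agent.Helper9.BSD Pool.Agent.Helper99.CM Filter Topology MeasureTheory Set

/-- For every `k ≠ 0` the Euler products of the curves `y² = x³ - k x`, `y² = x³ + k`,
`y² = x³ + 6 k x² + k² x` and `y² = x³ + 6 k x² - 3 k² x` (up to isomorphism over the rationals, all
elliptic curves with `j = 1728, 0, 287496, 54000`) continue to entire functions `F`, with a zero of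
some finite order `m` at `s = 1`.

Let `W` be an integral Weierstrass equation with nonzero discriminant, let `F` be entire and
equal to the Euler product `LE W` for `Re s > 3/2`, let `m` be the order of vanishing of `F` at
`s = 1`, and let `bsdProd W ⌊x⌋₊` be the product of `N_p / p` over the good primes `p ≤ x`.
(1) If `bsdProd ≤ C (log x)^k` for all large `x`, then `F` has no zero with `Re s > 1`, `m ≤ k`,
and for every `lam > 1` the mean of `log bsdProd` over `[x, lam x]` with respect to `dt/t` is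
`(m + o(1)) log log x`.
(2) If `bsdProd ≤ C (log x)^m` for all large `x`, then for every `η > 0` there is `c > 0` such that,
for every `lam > 1` and all large `x`, the set of `t` in `[x, lam x]` with
`bsdProd < c (log t)^m` has `dt/t`-measure at most `η log lam`.
(3), (4) The same with the inequalities reversed, if `F` has no zero in the real interval
`(1, 3/2]`. -/
theorem result :
    (∀ k : ℤ, k ≠ 0 → ∀ W : WeierstrassCurve ℤ,
      W = quar k ∨ W = sext k ∨ W = two (6 * k) (k ^ 2) ∨ W = two (6 * k) (-3 * k ^ 2) →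
      W.Δ ≠ 0 ∧ ∃ (F : ℂ → ℂ) (m : ℕ), IsCont W F m) ∧
    ∀ W : WeierstrassCurve ℤ, W.Δ ≠ 0 → ∀ (F : ℂ → ℂ) (m : ℕ), IsCont W F m →
    (∀ k C : ℝ, (∀ᶠ x : ℝ in atTop, bsdProd W ⌊x⌋₊ ≤ C * (Real.log x) ^ k) →
      (∀ s : ℂ, 1 < s.re → F s ≠ 0) ∧ (m : ℝ) ≤ k ∧ ∀ lam : ℝ, 1 < lam → Tendsto (fun x : ℝ =>
        (∫ t in x..(lam * x), Real.log (bsdProd W ⌊t⌋₊) / t)
          / (Real.log lam * Real.log (Real.log x))) atTop (𝓝 m)) ∧
    ((∃ C : ℝ, ∀ᶠ x : ℝ in atTop, bsdProd W ⌊x⌋₊ ≤ C * (Real.log x) ^ m) →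
      ∀ η : ℝ, 0 < η → ∃ c : ℝ, 0 < c ∧ ∀ lam : ℝ, 1 < lam → ∀ᶠ x : ℝ in atTop,
        ∫ t in {t : ℝ | bsdProd W ⌊t⌋₊ < c * (Real.log t) ^ m} ∩ Ioc x (lam * x), t⁻¹
          ≤ η * Real.log lam) ∧
    ((∀ x : ℝ, 1 < x → x ≤ 3 / 2 → F x ≠ 0) →
      (∀ k C : ℝ, 0 < C → (∀ᶠ x : ℝ in atTop, C * (Real.log x) ^ k ≤ bsdProd W ⌊x⌋₊) →
        (∀ s : ℂ, 1 < s.re → F s ≠ 0) ∧ k ≤ (m : ℝ) ∧ ∀ lam : ℝ, 1 < lam → Tendsto (fun x : ℝ =>
          (∫ t in x..(lam * x), Real.log (bsdProd W ⌊t⌋₊) / t)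
            / (Real.log lam * Real.log (Real.log x))) atTop (𝓝 m)) ∧
      ((∃ C : ℝ, 0 < C ∧ ∀ᶠ x : ℝ in atTop, C * (Real.log x) ^ m ≤ bsdProd W ⌊x⌋₊) →
        ∀ η : ℝ, 0 < η → ∃ c : ℝ, 0 < c ∧ ∀ lam : ℝ, 1 < lam → ∀ᶠ x : ℝ in atTop,
          ∫ t in {t : ℝ | c * (Real.log t) ^ m < bsdProd W ⌊t⌋₊} ∩ Ioc x (lam * x), t⁻¹
            ≤ η * Real.log lam)) := by
  refine ⟨fun k hk W hW => ?_, ?_⟩
  · obtain ⟨hΔ, -, F, m, h, -⟩ := cm_all hk hW
    exact ⟨hΔ, F, m, h⟩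
  rintro W hΔ F m ⟨hF, hFL, hm⟩
  refine ⟨fun k C h => ⟨upper_zero_free W F hF hFL hΔ k C h,
    upper_order W F hF hFL m hm hΔ k C h⟩, ?_, fun hZ => ?_⟩
  · rintro ⟨C, hC⟩ η hη
    exact upper_sharp W F hF hFL m hm hΔ C hC η hη
  · have hne := G_ne W F hFL hΔ hZ
    refine ⟨fun k C hC h => ⟨lower_zero_free W F hF hFL hΔ hne k C hC h,
      lower_order W F hF hFL m hm hΔ hne k C hC h⟩, ?_⟩
    rintro ⟨C, hC0, hC⟩ η hη
    exact lower_sharp W F hF hFL m hm hΔ hne C hC0 hC η hη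

end Pool.Agent.Helper10.Old.OrderInMean
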