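import Mathlib
import Pool.Agent.Helper10.Relative

/-!
# Standard conjecture D for products with varieties of norm type, uniform version

Let `W` be any Weil cohomology theory over any field `k`, with coefficient field `K`, let `Ω` be
any extension of `K`, and let `σ_0, …, σ_n` be automorphisms of `Ω` over `K`. If `P` is a finite
product of varieties of norm type for `σ_0, …, σ_n`, then the standard conjecture D holds for `P`,
and the standard conjecture D for `X ^ (n + 1)` implies the standard conjecture D for `X × P`.
-/

universe u v w t

open Pool.Agent.Helper10

theorem Pool.Agent.Results.MP_5f0950_ag.SquareRelative.result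
    {k : Type u} [Field k] {K : Type v} [Field K] [CharZero K] (W : WeilCohomology.{u, v, w} k K)
    (Ω : Type t) [Field Ω] [Algebra K Ω] (n : ℕ) (σ : ℕ → (Ω ≃ₐ[K] Ω)) (Y : SmProjVar k)
    (hY : W.SummandOf (W.UniformRelativeType Ω n σ) Y) : W.StandardD Y :=
  W.standardD_of_uniformRelativeType Ω n σ Y hY
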