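import Mathlib
import Pool.Agent.Helper10.RatStableThm

/-!
# Standard conjecture D and the independence of algebraic cycles

Let `W` be any Weil cohomology theory over any field `k`, with coefficient field `K`, and let `Ω` be
an algebraically closed extension of `K`. Let `σ_0, …, σ_n` be automorphisms of the field `Ω`, which
need not fix `K` (for instance `n = 1`, `σ_0` is the identity, and `σ_1` is the complex conjugation
for an isomorphism between `Ω` and the field of complex numbers), and let `G` be a set of symmetries
of `W` (for instance a Galois group). Let `Y` be a finite product of varieties of rational stable
type, or the product of such a product and a variety `V` all of whose powers satisfy the standard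
conjecture D. Then the standard conjecture D holds for `Y` if and only if classes of algebraic
cycles in `H(Y)` which are linearly independent over the integers are linearly independent over `K`.

By theorems of Tate, Zarhin, Mori and Faltings (which are not part of this file), all abelian
varieties over finitely generated fields are of rational stable type, for all `ℓ`.
-/

universe u v w t

open Pool.Agent.Helper10 Pool.Agent.Helper11

theorem Pool.Agent.Helper10.Old.StableIndependence.result
    {k : Type u} [Field k] {K : Type v} [Field K] [CharZero K] (W : WeilCohomology.{u, v, w} k K)
    (Ω : Type t) [Field Ω] [Algebra K Ω] [IsAlgClosed Ω] (n : ℕ) (σ : ℕ → (Ω ≃+* Ω))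
    (G : Set (∀ X : SmProjVar k, W.HΩ Ω X → W.HΩ Ω X)) (hG : G ⊆ W.symmetries Ω) (M : ℕ)
    (Y : SmProjVar k) (hY : W.RationalStableRelativeType Ω n σ G M Y) :
    W.StandardD Y ↔ CyclesIndependent W.toCohomologyData Y :=
  W.standardD_iff_of_rationalStable Ω hG hY
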