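import Mathlib
import Pool.Agent.Helper10.RelThm

/-!
# Standard conjecture D and relations between determinants of irreducible families

Let `W` be any Weil cohomology theory over any field `k`, with coefficient field `K`, and let `Ω` be
an algebraic closure of `K`. Let `G` be a set of symmetries of `W` (for instance a Galois group),
and `T` a set of symmetries, the multiplier of `h ∈ T` being in a subgroup `U h` of `Ωˣ`. Let `L` be
a set of finite families of classes in `Ω ⊗ H(V)` (for varying `V`), all even or all odd, absolutely
irreducible under `G`, stable under `Aut(Ω/K)`, the determinants of which are generalised
eigenvectors of the `h ∈ T`. Suppose that every non-empty multiset `S` of families in `L` which is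
stable under conjugation, and for which the product of the eigenvalues of the determinants is in
`U h` for all `h ∈ T`, has a multiple, all of whose products of determinants are algebraic. Then the
standard conjecture D holds for all varieties whose cohomology is spanned by the images, under
algebraic correspondences, of products of pull-backs of members of families in `L`, for the products
of such varieties with varieties `X` all of whose powers satisfy the standard conjecture D and for
which the eigenvalues of `h ∈ T` on `Ω ⊗ H(X)` are in `U h`, and for all varieties dominated by
these.

By theorems of Tate, Zarhin, Mori and Faltings (which are not part of this file) this applies to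
abelian varieties over finitely generated fields, for the `ℓ` such that the relations, stable under
conjugation, between the determinants of the irreducible constituents of the Galois representation
`Ω ⊗ H¹` are consequences of quadratic ones.
-/

universe u v w t

open Pool.Agent.Helper10 Pool.Agent.Helper11

theorem Pool.Agent.Helper10.Old.StableRelations.result
    {k : Type u} [Field k] {K : Type v} [Field K] [CharZero K] (W : WeilCohomology.{u, v, w} k K)
    (Ω : Type t) [Field Ω] [Algebra K Ω] [IsAlgClosure K Ω] (G T : Set (W.Operator Ω))
    (hG : G ⊆ W.symmetries Ω) (U : W.Operator Ω → Subgroup Ωˣ) (hT : W.AreSymmetries Ω T U)
    (L : Set (W.ClassFamily Ω)) (lam : W.ClassFamily Ω → W.Operator Ω → Ωˣ)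
    (hL : W.IsFamilySystem Ω G T L lam) (hR : W.InvariantDeterminantsAlgebraic Ω T L lam U)
    (Y : SmProjVar k) (hY : W.DominatedBy (W.RelationType Ω T L U) Y) : W.StandardD Y :=
  WeilCohomology.standardD_of_relationType hG hT hL hR Y hY
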