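import Mathlib
import Pool.Agent.Helper10.Stable

/-!
# Standard conjecture D for varieties generated by irreducible families dual to a conjugate

Let `W` be any Weil cohomology theory over any field `k`, with coefficient field `K`, and let `Ω`
be an algebraic closure of `K`. Let `P` be a variety such that the algebra `Ω ⊗ H(P)` is generated
by pull-backs of members of families of classes which are absolutely irreducible under some set of
symmetries of `W` (such as a Galois group), and which are dual to one of their conjugates under
`Aut(Ω / K)` by an algebraic correspondence (or some product of conjugates of their determinants is
algebraic). We prove that multiplication with `P` preserves the standard conjecture D: if all powers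
of `X` satisfy the standard conjecture D, then so do `X × P` and all varieties dominated by it. In
particular the standard conjecture D holds for `P` and all its powers, for instance for abelian
varieties without factors of type IV over finitely generated fields (by theorems of Tate, Zarhin,
Mori and Faltings, which are not part of this file).
-/

universe u v w t

open Pool.Agent.Helper10

theorem Pool.Agent.Results.MP_5f0950_ag.StableRelative.result
    {k : Type u} [Field k] {K : Type v} [Field K] [CharZero K] (W : WeilCohomology.{u, v, w} k K)
    (Ω : Type t) [Field Ω] [Algebra K Ω] [IsAlgClosure K Ω] (Y : SmProjVar k)
    (hY : W.DominatedBy (W.StableType Ω) Y) : W.StandardD Y :=
  W.standardD_of_stableType Ω Y hY
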