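import Pool.Agent.Helper10.UP.Fin
import Pool.Agent.Helper87.VP.FinV

set_option autoImplicit false

namespace Pool.Agent.Results.MP_4a9ea6_nt.UnconditionalProduct

open Pool.Agent.Helper9.BSD Pool.Agent.Helper9.CN Pool.Agent.Helper99.CM Filter Topology
  MeasureTheory Set

/-- The weight `Re (1 / Γ (1 + e ^ (i / √τ) log n / τ))` with `τ = (log log x) / 2`. -/
noncomputable def wtU (x n : ℕ) : ℝ :=
  ((Complex.Gamma (1 + Complex.exp (Complex.I * ((√(Real.log (Real.log x) / 2))⁻¹ : ℝ))
    / (Real.log (Real.log x) / 2 : ℝ) * (Real.log n : ℝ)))⁻¹).re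

/-- The weight `Re W (2 e ^ (2 π i a) log n / (log x) ^ a)`, where `W z` is the entire function
`∑ (-z) ^ j / (j! Γ (1 - a j))`. -/
noncomputable def wtV (a : ℝ) (x n : ℕ) : ℝ :=
  (∑' j : ℕ, (-(2 * Complex.exp (2 * Real.pi * a * Complex.I) * Real.log n
    / ((Real.log x) ^ a : ℝ))) ^ j / (j.factorial : ℂ) * (Complex.Gamma (1 - a * j))⁻¹).re

/-- The constant `∫_0^∞ (e ^ (-y) - 1 / Γ (1 + y)) dy / y`. -/
noncomputable def kap : ℝ := ∫ y in Ioi (0 : ℝ), (Real.exp (-y) - (Real.Gamma (1 + y))⁻¹) / y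

/-- The inverse of the Euler product at `s = 1` over the prime powers `q ≤ x` with the weights
`w x q`: the exponential of `- ∑ lam n w x n` over `n ≤ x`, where `lam n = (α ^ k + β ^ k) / (k n)`
if `n = p ^ k`, and `lam n = 0` otherwise. -/
noncomputable def starUpTo (W : WeierstrassCurve ℤ) (w : ℕ → ℕ → ℝ) (x : ℕ) : ℝ :=
  Real.exp (-∑ n ∈ Finset.Icc 1 x, lam W n * w x n)

/-- The product of `(N_p / p) ^ (w x p)` over the primes `p ≤ x` not dividing the
discriminant. -/
noncomputable def prodUpTo (W : WeierstrassCurve ℤ) (w : ℕ → ℕ → ℝ) (x : ℕ) : ℝ :=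
  ∏ p ∈ (Finset.Icc 1 x).filter (fun p : ℕ => p.Prime ∧ ¬ (p : ℤ) ∣ W.Δ),
    ((numPts W p : ℝ) / p) ^ w x p

/-- `Q x / (L x) ^ k` tends to `C ≠ 0` exactly when `k = e` and `C = K`; here `K > 0`. -/
def Only (Q L : ℕ → ℝ) (e K : ℝ) : Prop :=
  0 < K ∧ ∀ k C : ℝ, C ≠ 0 →
    (Tendsto (fun x : ℕ => Q x / (L x) ^ k) atTop (𝓝 C) ↔ k = e ∧ C = K)

/-- `F` has no zero `1 + r e ^ (i θ)` with `r > 0` and `π a / 2 < θ < 7 π a / 2`. -/
def Free (F : ℂ → ℂ) (a : ℝ) : Prop :=
  ∀ r θ : ℝ, 0 < r → Real.pi * a / 2 < θ → θ < 7 * Real.pi * a / 2 →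
    F (1 + r * Complex.exp (θ * Complex.I)) ≠ 0

/-- Let `W` be an integral Weierstrass equation with nonzero discriminant, let `F` be entire and
equal to the Euler product `LE W` for `Re s > 3/2`, let `m` be its order of vanishing and
`F^(m)(1) / m!` its leading Taylor coefficient at `s = 1`, and `A = |F^(m)(1) / m!|`.

(1) `starUpTo W wtU ~ K (log log x)^m` for `K = e^(- kap m) / (2^m A)`, and if `W` satisfies
`SqWin`, then `prodUpTo W wtU ~ (√2 K / badProd W) (log log x)^m`; the exponent and the constant are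
the only ones possible.  No condition is put on the zeros of `F`.

(2) `Free F a` holds for all small `a > 0`, and whenever `0 < a ≤ 1/9` and `Free F a`, then
`starUpTo W (wtV a) ~ K (log x)^(a m)` for `K = e^(γ a m) / (2^m A)`, and if `W` satisfies
`SqWin`, then `prodUpTo W (wtV a) ~ (√2 K / badProd W) (log x)^(a m)`; the exponent and the
constant are the only ones possible.

(3) For every `j ≠ 0` the curves `y² = x³ - j x`, `y² = x³ + j`,
`y² = x³ + 6 j x² + j² x` and `y² = x³ + 6 j x² - 3 j² x` (up to isomorphism over the rationals, all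
elliptic curves with `j`-invariant `1728, 0, 287496, 54000`) satisfy all the hypotheses. -/
theorem result :
    (∀ W : WeierstrassCurve ℤ, W.Δ ≠ 0 → ∀ (F : ℂ → ℂ) (m : ℕ), IsCont W F m →
      ∀ A : ℝ, A = ‖iteratedDeriv m F 1 / (m.factorial : ℂ)‖ →
      (∀ K : ℝ, K = Real.exp (-(kap * m)) / (2 ^ m * A) →
        Only (starUpTo W wtU) (fun x => Real.log (Real.log x)) m K ∧
        (SqWin W →
          Only (prodUpTo W wtU) (fun x => Real.log (Real.log x)) m (√2 * K / badProd W))) ∧
      (∃ a₀ : ℝ, 0 < a₀ ∧ ∀ a : ℝ, 0 < a → a ≤ a₀ → Free F a) ∧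
      (∀ a : ℝ, 0 < a → a ≤ 1 / 9 → Free F a →
        ∀ K : ℝ, K = Real.exp (Real.eulerMascheroniConstant * a * m) / (2 ^ m * A) →
        Only (starUpTo W (wtV a)) (fun x => Real.log x) (a * m) K ∧
        (SqWin W →
          Only (prodUpTo W (wtV a)) (fun x => Real.log x) (a * m) (√2 * K / badProd W)))) ∧
    (∀ j : ℤ, j ≠ 0 → ∀ W : WeierstrassCurve ℤ,
      W = quar j ∨ W = sext j ∨ W = two (6 * j) (j ^ 2) ∨ W = two (6 * j) (-3 * j ^ 2) →
      W.Δ ≠ 0 ∧ SqWin W ∧ ∃ (F : ℂ → ℂ) (m : ℕ), IsCont W F m) := by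
  have hLL : Tendsto (fun x : ℕ => Real.log (Real.log (x : ℝ))) atTop atTop :=
    Real.tendsto_log_atTop.comp Pool.Agent.Helper10.UP.Fin.tendsto_log_nat
  refine ⟨fun W hΔ F m hF A hA => ?_, fun j hj W hW => ?_⟩
  · have hA0 : 0 < A := by
      rw [hA]
      exact Pool.Agent.Helper10.UP.Fin.norm_pos_lead hF
    have hB0 : 0 < badProd W := badProd_pos W hΔ
    refine ⟨fun K hK => ?_, ?_, fun a ha0 ha9 hfree K hK => ?_⟩
    · have hK0 : 0 < K := by
        rw [hK]
        positivity
      have hs := Pool.Agent.Helper10.UP.Fin.star_lim hF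
      have e1 : Real.exp (-(m * Pool.Agent.Helper10.UP.kap
          + Real.log ‖iteratedDeriv m F 1 / (m.factorial : ℂ)‖)) / 2 ^ m = K := by
        rw [hK, Pool.Agent.Helper10.UP.Fin.exp_star hF, hA, div_div, mul_comm (2 ^ m : ℝ)]
        rfl
      refine ⟨⟨hK0, Pool.Agent.Helper10.UP.Fin.uniq_gen hLL hK0 ?_⟩, fun hS =>
        ⟨by positivity, Pool.Agent.Helper10.UP.Fin.uniq_gen hLL (by positivity) ?_⟩⟩
      · have h := Pool.Agent.Helper74.UP.fin_form hs (Pool.Agent.Helper10.UP.Fin.trunc'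
          (Pool.Agent.Helper95.UP.abs_lam_le_rpow W) (Pool.Agent.Helper95.UP.lam_zero W))
        rw [e1] at h
        simp only [Real.rpow_natCast]
        exact h
      · have hc := Pool.Agent.Helper10.UP.Fin.cc_lim hΔ hS hF
        have e2 : Real.exp (Real.log (√2 / badProd W) - (m * Pool.Agent.Helper10.UP.kap
            + Real.log ‖iteratedDeriv m F 1 / (m.factorial : ℂ)‖)) / 2 ^ m
            = √2 * K / badProd W := by
          rw [Pool.Agent.Helper10.UP.Fin.exp_cc hΔ hF, hK, hA]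
          show _ = √2 * (Real.exp (-(Pool.Agent.Helper10.UP.kap * m)) / _) / _
          rw [mul_comm (2 ^ m : ℝ), ← div_div]
          ring
        have h := Pool.Agent.Helper74.UP.prod_fin_form hc (Pool.Agent.Helper10.UP.Fin.trunc'
          (Pool.Agent.Helper95.UP.abs_cc_le_rpow W) (Pool.Agent.Helper95.UP.cc_zero W))
        rw [e2] at h
        simp only [Real.rpow_natCast]
        exact h
    · obtain ⟨a₀, h0, -, h1⟩ := Pool.Agent.Helper87.VP.exists_aV W hF
      refine ⟨a₀, h0, fun a ha0 ha r θ hr hθ1 hθ2 => h1 a ha r θ hr ?_ hθ2⟩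
      have := Real.pi_pos
      have : 0 < Real.pi * a / 2 := by positivity
      linarith
    · have hK0 : 0 < K := by
        rw [hK]
        positivity
      refine ⟨⟨hK0, Pool.Agent.Helper10.UP.Fin.uniq_gen
        Pool.Agent.Helper10.UP.Fin.tendsto_log_nat hK0 ?_⟩, fun hS => ⟨by positivity,
        Pool.Agent.Helper10.UP.Fin.uniq_gen Pool.Agent.Helper10.UP.Fin.tendsto_log_nat
          (by positivity) ?_⟩⟩
      · have h := Pool.Agent.Helper87.VP.star_fin W hF ha0 ha9 hfree
        have e : Real.exp (a * m * Real.eulerMascheroniConstant) /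
            (2 ^ m * ‖iteratedDeriv m F 1 / (m.factorial : ℂ)‖) = K := by
          rw [hK, hA]
          congr 2
          ring
        rw [e] at h
        exact h
      · have h := Pool.Agent.Helper87.VP.prod_fin_V W hΔ hS hF ha0 ha9 hfree
        have e : √2 / badProd W * (Real.exp (a * m * Real.eulerMascheroniConstant) /
            (2 ^ m * ‖iteratedDeriv m F 1 / (m.factorial : ℂ)‖)) = √2 * K / badProd W := by
          have e' : Real.exp (a * m * Real.eulerMascheroniConstant) /
              (2 ^ m * ‖iteratedDeriv m F 1 / (m.factorial : ℂ)‖) = K := by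
            rw [hK, hA]
            congr 2
            ring
          rw [e']
          ring
        rw [e] at h
        exact h
  · obtain ⟨hΔ, hS, F, m, h, -⟩ := cm_all hj hW
    exact ⟨hΔ, hS, F, m, h⟩

end Pool.Agent.Results.MP_4a9ea6_nt.UnconditionalProduct
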